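import Mathlib

/-!
Pairs of powers `a ^ n`, `b ^ m` at distance at most `x`.
-/

set_option autoImplicit false

namespace Pool.Agent.H491R3.PE

open Real Filter Set

/-- the pairs `(n, m)` with `|a ^ n - b ^ m| ≤ x` -/
def NS (a b x : ℝ) : Set (ℕ × ℕ) := {p | |a ^ p.1 - b ^ p.2| ≤ x}

/-- the coprime pairs `(n, m)` with `a ^ n > x ^ 2` and `|a ^ n - b ^ m| ≤ x` -/
def KS (a b x : ℝ) : Set (ℕ × ℕ) :=
  {p | p.1.Coprime p.2 ∧ x ^ 2 < a ^ p.1 ∧ |a ^ p.1 - b ^ p.2| ≤ x}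

theorem KS_sub (a b x : ℝ) : KS a b x ⊆ NS a b x := fun _ hp => hp.2.2

theorem cnt (u L : ℝ) (hL : 0 ≤ L) : ((Finset.Icc ⌈u⌉₊ ⌊u + L⌋₊).card : ℝ) ≤ L + 1 := by
  rw [Nat.card_Icc]
  rcases lt_or_ge (u + L) 0 with h | h
  · rw [Nat.floor_of_nonpos h.le]
    have : ((0 + 1 - ⌈u⌉₊ : ℕ) : ℝ) ≤ 1 := by
      exact_mod_cast Nat.sub_le _ _
    linarith
  · rcases le_total ⌈u⌉₊ (⌊u + L⌋₊ + 1) with h1 | h1
    · rw [Nat.cast_sub h1]
      push_cast
      have h2 := Nat.floor_le h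
      have h3 := Nat.le_ceil u
      linarith
    · rw [Nat.sub_eq_zero_of_le h1]
      push_cast
      linarith

theorem set_count {S : Set (ℕ × ℕ)} {u L L2 : ℝ} {f : ℕ → ℝ} (hL : 0 ≤ L) (hL2 : 0 ≤ L2)
    (h : ∀ p ∈ S, u ≤ p.1 ∧ (p.1 : ℝ) ≤ u + L ∧ f p.1 ≤ p.2 ∧ (p.2 : ℝ) ≤ f p.1 + L2) :
    S.Finite ∧ (S.ncard : ℝ) ≤ (L + 1) * (L2 + 1) := by
  classical
  set F : Finset (ℕ × ℕ) := (Finset.Icc ⌈u⌉₊ ⌊u + L⌋₊).biUnion
    (fun n => (Finset.Icc ⌈f n⌉₊ ⌊f n + L2⌋₊).image (fun m => (n, m))) with hF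
  have hsub : S ⊆ (F : Set (ℕ × ℕ)) := by
    intro p hp
    obtain ⟨h1, h2, h3, h4⟩ := h p hp
    rw [Finset.mem_coe, hF, Finset.mem_biUnion]
    refine ⟨p.1, Finset.mem_Icc.2 ⟨Nat.ceil_le.2 h1, Nat.le_floor h2⟩, ?_⟩
    rw [Finset.mem_image]
    exact ⟨p.2, Finset.mem_Icc.2 ⟨Nat.ceil_le.2 h3, Nat.le_floor h4⟩, rfl⟩
  refine ⟨F.finite_toSet.subset hsub, ?_⟩
  have h1 : (S.ncard : ℝ) ≤ (F.card : ℝ) := by
    rw [← Set.ncard_coe_finset F]
    exact_mod_cast Set.ncard_le_ncard hsub F.finite_toSet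
  refine h1.trans ?_
  have h2 : (F.card : ℝ) ≤ ∑ n ∈ Finset.Icc ⌈u⌉₊ ⌊u + L⌋₊, (L2 + 1) := by
    refine le_trans (b := ((∑ n ∈ Finset.Icc ⌈u⌉₊ ⌊u + L⌋₊,
      ((Finset.Icc ⌈f n⌉₊ ⌊f n + L2⌋₊).image (fun m => (n, m))).card : ℕ) : ℝ)) ?_ ?_
    · exact_mod_cast Finset.card_biUnion_le
    · push_cast
      apply Finset.sum_le_sum
      intro n _
      refine le_trans ?_ (cnt (f n) L2 hL2)
      exact_mod_cast Finset.card_image_le
  refine h2.trans ?_
  rw [Finset.sum_const, nsmul_eq_mul]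
  exact mul_le_mul_of_nonneg_right (cnt u L hL) (by linarith)

section

variable {a b : ℝ}

theorem pow_le_iff_log (ha : 1 < a) {x : ℝ} (hx : 0 < x) (n : ℕ) :
    a ^ n ≤ x ↔ (n : ℝ) ≤ log x / log a := by
  have hA : 0 < log a := log_pos ha
  rw [le_div_iff₀ hA, ← Real.log_pow, Real.log_le_log_iff (by positivity) hx]

theorem lt_pow_iff_log (ha : 1 < a) {x : ℝ} (hx : 0 < x) (n : ℕ) :
    x < a ^ n ↔ log x / log a < (n : ℝ) := by
  rw [← not_le, pow_le_iff_log ha hx, not_le]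

/-- the factorisation inequality -/
theorem gcd_ineq (ha : 1 < a) (hb : 1 < b) (n m g : ℕ) (hg : 1 ≤ g) :
    |a ^ n - b ^ m| * (a ^ n) ^ (g - 1) ≤ |a ^ (g * n) - b ^ (g * m)| := by
  have h := (Commute.all (a ^ n) (b ^ m)).mul_geom_sum₂ g
  have e1 : a ^ (g * n) = (a ^ n) ^ g := by rw [← pow_mul, mul_comm]
  have e2 : b ^ (g * m) = (b ^ m) ^ g := by rw [← pow_mul, mul_comm]
  rw [e1, e2, ← h, abs_mul]
  apply mul_le_mul_of_nonneg_left _ (abs_nonneg _)
  refine le_trans ?_ (le_abs_self _)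
  have h2 : (a ^ n) ^ (g - 1) * (b ^ m) ^ (g - 1 - (g - 1)) ≤
      ∑ i ∈ Finset.range g, (a ^ n) ^ i * (b ^ m) ^ (g - 1 - i) :=
    Finset.single_le_sum (f := fun i => (a ^ n) ^ i * (b ^ m) ^ (g - 1 - i))
      (fun i _ => by positivity) (Finset.mem_range.2 (by omega))
  simpa using h2

/-- for `2 x < a ^ n`, few `m` -/
theorem m_window (ha : 1 < a) (hb : 1 < b) {x : ℝ} {n m : ℕ} (h2 : 2 * x < a ^ n)
    (h : |a ^ n - b ^ m| ≤ x) :
    (n : ℝ) * log a / log b - log 2 / log b ≤ m ∧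
      (m : ℝ) ≤ n * log a / log b - log 2 / log b + log 3 / log b := by
  have hB : 0 < log b := log_pos hb
  have ha0 : 0 < a ^ n := by positivity
  have hb0 : 0 < b ^ m := by positivity
  rw [abs_le] at h
  have h3 : a ^ n / 2 ≤ b ^ m := by linarith [h.1]
  have h4 : b ^ m ≤ 3 * (a ^ n / 2) := by linarith [h.1]
  have h5 := Real.log_le_log (by positivity) h3
  have h6 := Real.log_le_log hb0 h4
  rw [Real.log_div ha0.ne' (by norm_num), Real.log_pow, Real.log_pow] at h5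
  rw [Real.log_mul (by norm_num) (by positivity), Real.log_div ha0.ne' (by norm_num), Real.log_pow,
    Real.log_pow] at h6
  constructor
  · rw [← sub_div, div_le_iff₀ hB]
    exact h5
  · rw [← sub_div, ← add_div, le_div_iff₀ hB]
    linarith

theorem box_count (ha : 1 < a) (hb : 1 < b) {x : ℝ} (hx : 2 ≤ x) :
    {p : ℕ × ℕ | a ^ p.1 ≤ x ∧ b ^ p.2 ≤ x}.Finite ∧
      log x / log a * (log x / log b) ≤
        ({p : ℕ × ℕ | a ^ p.1 ≤ x ∧ b ^ p.2 ≤ x}.ncard : ℝ) ∧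
      ({p : ℕ × ℕ | a ^ p.1 ≤ x ∧ b ^ p.2 ≤ x}.ncard : ℝ) ≤
        (log x / log a + 1) * (log x / log b + 1) := by
  classical
  have hA : 0 < log a := log_pos ha
  have hB : 0 < log b := log_pos hb
  have hx0 : 0 < x := by linarith
  have hl : 0 < log x := log_pos (by linarith)
  have hU : 0 ≤ log x / log a := by positivity
  have hV : 0 ≤ log x / log b := by positivity
  have e : {p : ℕ × ℕ | a ^ p.1 ≤ x ∧ b ^ p.2 ≤ x} =
      ((Finset.Icc 0 ⌊log x / log a⌋₊ ×ˢ Finset.Icc 0 ⌊log x / log b⌋₊ :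
        Finset (ℕ × ℕ)) : Set (ℕ × ℕ)) := by
    ext p
    rw [mem_ofPred_eq, Finset.mem_coe, Finset.mem_product, Finset.mem_Icc, Finset.mem_Icc,
      pow_le_iff_log ha hx0, pow_le_iff_log hb hx0, Nat.le_floor_iff hU, Nat.le_floor_iff hV]
    simp
  rw [e, Set.ncard_coe_finset, Finset.card_product, Nat.card_Icc, Nat.card_Icc]
  refine ⟨Finset.finite_toSet _, ?_, ?_⟩
  · push_cast
    have h1 := (Nat.lt_floor_add_one (log x / log a)).le
    have h2 := (Nat.lt_floor_add_one (log x / log b)).le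
    exact mul_le_mul h1 h2 hV (by positivity)
  · push_cast
    have h1 := Nat.floor_le hU
    have h2 := Nat.floor_le hV
    exact mul_le_mul (by linarith) (by linarith) (by positivity) (by positivity)

set_option maxHeartbeats 1000000 in
/-- the count, given a lower bound for all the distances -/
theorem main_count (ha : 1 < a) (hb : 1 < b) {c : ℝ} (hc : 0 < c) (hc1 : c ≤ 1)
    (hcc : ∀ p : ℕ × ℕ, p ≠ (0, 0) → c ≤ |a ^ p.1 - b ^ p.2|) :
    ∃ C : ℝ, ∀ x : ℝ, 2 ≤ x → (NS a b x \ KS a b x).Finite ∧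
      |((NS a b x \ KS a b x).ncard : ℝ) - log x ^ 2 / (log a * log b)| ≤ C * log x := by
  classical
  have hA : 0 < log a := log_pos ha
  have hB : 0 < log b := log_pos hb
  have hl2 : 0 < log 2 := log_pos (by norm_num)
  have hl3 : 0 < log 3 := log_pos (by norm_num)
  have hlc : 0 ≤ -log c := by
    have := log_nonpos hc.le hc1
    linarith
  set A := log a with hAdef
  set B := log b with hBdef
  set c1 := log 2 / B + 1 with hc1def
  set c2 := log 2 / A + 1 with hc2def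
  set c3 := log 3 / B with hc3def
  set c4 := log 3 / B + 1 with hc4def
  set c5 := (2 * (-log c) / A + 1) * (log 3 / B + 1) with hc5def
  have p1 : 0 < c1 := by positivity
  have p2 : 0 < c2 := by positivity
  have p3 : 0 < c3 := by positivity
  have p4 : 0 < c4 := by positivity
  have p5 : 0 ≤ c5 := by positivity
  set P := 1 / A + 1 / B + c1 / A + c2 / B + 2 * c4 / A with hP
  set Q := 1 + c1 + c2 * (c3 + 1) + c4 + c5 with hQ
  have hP0 : 0 ≤ P := by positivity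
  have hQ0 : 0 ≤ Q := by positivity
  refine ⟨P + Q / log 2, fun x hx => ?_⟩
  have hx0 : 0 < x := by linarith
  have hx4 : 4 ≤ x ^ 2 := by nlinarith [hx]
  have hxx : 2 * x ≤ x ^ 2 := by nlinarith [hx]
  have hlx : log 2 ≤ log x := Real.log_le_log (by norm_num) hx
  have hlx0 : 0 < log x := by linarith
  set U := log x / A with hU
  set V := log x / B with hV
  have hU0 : 0 ≤ U := by positivity
  have hV0 : 0 ≤ V := by positivity
  set Bx := {p : ℕ × ℕ | a ^ p.1 ≤ x ∧ b ^ p.2 ≤ x} with hBx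
  obtain ⟨bf, bl, bu⟩ := box_count ha hb hx
  set R1 := {p : ℕ × ℕ | |a ^ p.1 - b ^ p.2| ≤ x ∧ a ^ p.1 ≤ x ∧ x < b ^ p.2} with hR1
  set R2 := {p : ℕ × ℕ | |a ^ p.1 - b ^ p.2| ≤ x ∧ x < a ^ p.1 ∧ a ^ p.1 ≤ 2 * x} with hR2
  set R3 := {p : ℕ × ℕ | |a ^ p.1 - b ^ p.2| ≤ x ∧ 2 * x < a ^ p.1 ∧ a ^ p.1 ≤ x ^ 2} with hR3
  set R4 := {p : ℕ × ℕ | |a ^ p.1 - b ^ p.2| ≤ x ∧ x ^ 2 < a ^ p.1 ∧ ¬ p.1.Coprime p.2} with hR4
  have l2x : log (2 * x) = log 2 + log x := Real.log_mul (by norm_num) hx0.ne'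
  have l3x : log (3 * x) = log 3 + log x := Real.log_mul (by norm_num) hx0.ne'
  have lx2 : log (x ^ 2) = 2 * log x := by rw [Real.log_pow]; norm_num
  have r1 := set_count (S := R1) (u := 0) (L := U) (L2 := log 2 / B) (f := fun _ => V) hU0
    (by positivity) (by
      rintro p ⟨h1, h2, h3⟩
      rw [abs_le] at h1
      have h4 := (pow_le_iff_log ha hx0 p.1).1 h2
      have h5 := (lt_pow_iff_log hb hx0 p.2).1 h3
      have h6 : b ^ p.2 ≤ 2 * x := by linarith [h1.1]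
      have h7 := (pow_le_iff_log hb (by linarith) p.2).1 h6
      rw [l2x, add_div] at h7
      refine ⟨by positivity, by rw [zero_add]; exact h4, h5.le, by linarith⟩)
  have r2 := set_count (S := R2) (u := U) (L := log 2 / A) (L2 := V + c3) (f := fun _ => 0)
    (by positivity) (by positivity) (by
      rintro p ⟨h1, h2, h3⟩
      rw [abs_le] at h1
      have h4 := (lt_pow_iff_log ha hx0 p.1).1 h2
      have h5 := (pow_le_iff_log ha (by linarith) p.1).1 h3
      rw [l2x, add_div] at h5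
      have h6 : b ^ p.2 ≤ 3 * x := by linarith [h1.1]
      have h7 := (pow_le_iff_log hb (by linarith) p.2).1 h6
      rw [l3x, add_div] at h7
      refine ⟨h4.le, by linarith, by positivity, by linarith⟩)
  have r3 := set_count (S := R3) (u := 0) (L := 2 * U) (L2 := log 3 / B)
    (f := fun n => (n : ℝ) * log a / log b - log 2 / log b)
    (by positivity) (by positivity) (by
      rintro p ⟨h1, h2, h3⟩
      have h5 := (pow_le_iff_log ha (by positivity) p.1).1 h3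
      rw [lx2, mul_div_assoc] at h5
      obtain ⟨h6, h7⟩ := m_window ha hb h2 h1
      refine ⟨by positivity, by rw [zero_add]; exact h5, h6, h7⟩)
  have r4 := set_count (S := R4) (u := 2 * U) (L := 2 * (-log c) / A) (L2 := log 3 / B)
    (f := fun n => (n : ℝ) * log a / log b - log 2 / log b)
    (by positivity) (by positivity) (by
      rintro p ⟨h1, h2, h3⟩
      obtain ⟨h6, h7⟩ := m_window ha hb (lt_of_le_of_lt hxx h2) h1
      have h4 := (lt_pow_iff_log ha (by positivity) p.1).1 h2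
      rw [lx2, mul_div_assoc] at h4
      refine ⟨h4.le, ?_, h6, h7⟩
      -- the gcd
      have hn0 : p.1 ≠ 0 := by
        intro h0
        rw [h0, pow_zero] at h2
        linarith
      set g := Nat.gcd p.1 p.2 with hg
      have hg0 : g ≠ 0 := Nat.gcd_ne_zero_left hn0
      have hg2 : 2 ≤ g := by
        have : g ≠ 1 := h3
        omega
      obtain ⟨n1, hn1⟩ := Nat.gcd_dvd_left p.1 p.2
      obtain ⟨m1, hm1⟩ := Nat.gcd_dvd_right p.1 p.2
      rw [← hg] at hn1 hm1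
      have hn1' : n1 ≠ 0 := by
        rintro rfl
        exact hn0 (by rw [hn1, mul_zero])
      have h8 := gcd_ineq ha hb n1 m1 g (by omega)
      rw [← hn1, ← hm1] at h8
      have h9 : c ≤ |a ^ n1 - b ^ m1| := hcc (n1, m1) (by
        intro h
        exact hn1' (congrArg Prod.fst h))
      have h10 : c * (a ^ n1) ^ (g - 1) ≤ x :=
        (mul_le_mul_of_nonneg_right h9 (by positivity)).trans (h8.trans h1)
      have h11 : (a ^ n1) ^ (g - 1) ≤ x / c := by
        rw [le_div_iff₀ hc, mul_comm]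
        exact h10
      rw [← pow_mul] at h11
      have h12 := (pow_le_iff_log ha (by positivity) _).1 h11
      rw [Real.log_div hx0.ne' hc.ne', sub_div] at h12
      have h13 : (p.1 : ℝ) ≤ 2 * ((n1 * (g - 1) : ℕ) : ℝ) := by
        have : p.1 ≤ 2 * (n1 * (g - 1)) := by
          rw [hn1]
          obtain ⟨k, hk⟩ : ∃ k, g = k + 2 := ⟨g - 2, by omega⟩
          rw [hk]
          have e : k + 2 - 1 = k + 1 := by omega
          rw [e]
          have e3 : 2 * (n1 * (k + 1)) = (k + 2) * n1 + k * n1 := by ring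
          rw [e3]
          exact Nat.le_add_right _ _
        exact_mod_cast this
      have h14 : 2 * (-log c) / A = -(2 * (log c / A)) := by ring
      rw [h14]
      linarith)
  have hcover : NS a b x \ KS a b x = Bx ∪ (R1 ∪ (R2 ∪ (R3 ∪ R4))) := by
    ext p
    simp only [mem_diff, mem_union, hBx, hR1, hR2, hR3, hR4, mem_setOf_eq, NS, KS]
    constructor
    · rintro ⟨h1, h2⟩
      rcases le_or_gt (a ^ p.1) x with h3 | h3
      · rcases le_or_gt (b ^ p.2) x with h4 | h4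
        · exact Or.inl ⟨h3, h4⟩
        · exact Or.inr (Or.inl ⟨h1, h3, h4⟩)
      · rcases le_or_gt (a ^ p.1) (2 * x) with h4 | h4
        · exact Or.inr (Or.inr (Or.inl ⟨h1, h3, h4⟩))
        · rcases le_or_gt (a ^ p.1) (x ^ 2) with h5 | h5
          · exact Or.inr (Or.inr (Or.inr (Or.inl ⟨h1, h4, h5⟩)))
          · refine Or.inr (Or.inr (Or.inr (Or.inr ⟨h1, h5, fun h6 => h2 ⟨h6, h5, h1⟩⟩)))
    · rintro (⟨h1, h2⟩ | ⟨h1, h2, h3⟩ | ⟨h1, h2, h3⟩ | ⟨h1, h2, h3⟩ | ⟨h1, h2, h3⟩)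
      · refine ⟨?_, fun h => ?_⟩
        · have ha0 : 0 < a ^ p.1 := by positivity
          have hb0 : 0 < b ^ p.2 := by positivity
          rw [abs_le]
          constructor <;> linarith
        · have := h.2.1
          linarith
      · exact ⟨h1, fun h => by have := h.2.1; linarith⟩
      · exact ⟨h1, fun h => by have := h.2.1; linarith⟩
      · exact ⟨h1, fun h => by have := h.2.1; linarith⟩
      · exact ⟨h1, fun h => h3 h.1⟩
  have hfin : (Bx ∪ (R1 ∪ (R2 ∪ (R3 ∪ R4)))).Finite :=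
    bf.union (r1.1.union (r2.1.union (r3.1.union r4.1)))
  rw [hcover]
  refine ⟨hfin, ?_⟩
  have up : ((Bx ∪ (R1 ∪ (R2 ∪ (R3 ∪ R4)))).ncard : ℝ) ≤
      Bx.ncard + (R1.ncard + (R2.ncard + (R3.ncard + R4.ncard))) := by
    have u1 := Set.ncard_union_le Bx (R1 ∪ (R2 ∪ (R3 ∪ R4)))
    have u2 := Set.ncard_union_le R1 (R2 ∪ (R3 ∪ R4))
    have u3 := Set.ncard_union_le R2 (R3 ∪ R4)
    have u4 := Set.ncard_union_le R3 R4
    exact_mod_cast (by omega : (Bx ∪ (R1 ∪ (R2 ∪ (R3 ∪ R4)))).ncard ≤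
      Bx.ncard + (R1.ncard + (R2.ncard + (R3.ncard + R4.ncard))))
  have lo : (Bx.ncard : ℝ) ≤ ((Bx ∪ (R1 ∪ (R2 ∪ (R3 ∪ R4)))).ncard : ℝ) := by
    exact_mod_cast Set.ncard_le_ncard (Set.subset_union_left) hfin
  have hmain : log x ^ 2 / (A * B) = U * V := by
    rw [hU, hV]
    field_simp
  have hQl : Q ≤ Q / log 2 * log x := by
    rw [div_mul_eq_mul_div, le_div_iff₀ hl2]
    exact mul_le_mul_of_nonneg_left hlx hQ0
  have htot : U + V + 1 + (U + 1) * c1 + c2 * (V + c3 + 1) + (2 * U + 1) * c4 + c5 =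
      P * log x + Q := by
    rw [hP, hQ, hU, hV]
    field_simp
    ring
  have s1 := r1.2
  have s2 := r2.2
  have s3 := r3.2
  have s4 := r4.2
  rw [hmain, abs_le]
  constructor
  · have : 0 ≤ (P + Q / log 2) * log x := by positivity
    linarith
  · have e1 : (P + Q / log 2) * log x = P * log x + Q / log 2 * log x := by ring
    rw [e1]
    have e2 : (U + 1) * (V + 1) = U * V + U + V + 1 := by ring
    rw [e2] at bu
    linarith

end

end Pool.Agent.H491R3.PE
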