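import Pool.Agent.H491R3.PE.Basic

set_option autoImplicit false

namespace Pool.Agent.H491R3.PE

open Real Filter Set Asymptotics

variable {a b : ℝ}

theorem pow_ne_pow (ha : 1 < a) (hb : 1 < b) (hirr : Irrational (log a / log b)) {n m : ℕ}
    (h : (n, m) ≠ (0, 0)) : a ^ n ≠ b ^ m := by
  intro he
  have hA : 0 < log a := log_pos ha
  have hB : 0 < log b := log_pos hb
  have h1 := congrArg log he
  rw [Real.log_pow, Real.log_pow] at h1
  rcases Nat.eq_zero_or_pos n with hn | hn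
  · subst hn
    rw [Nat.cast_zero, zero_mul] at h1
    have h2 : (m : ℝ) = 0 := by
      rcases mul_eq_zero.1 h1.symm with h2 | h2
      · exact h2
      · exact absurd h2 hB.ne'
    apply h
    rw [Nat.cast_eq_zero.1 h2]
  · apply hirr
    refine ⟨(m : ℚ) / n, ?_⟩
    have hn' : (n : ℝ) ≠ 0 := by exact_mod_cast hn.ne'
    push_cast
    rw [div_eq_div_iff hn' hB.ne']
    linarith

theorem exists_c (ha : 1 < a) (hb : 1 < b) (hirr : Irrational (log a / log b))
    (hK : (KS a b 2).Finite) : ∃ c : ℝ, 0 < c ∧ c ≤ 1 ∧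
      ∀ p : ℕ × ℕ, p ≠ (0, 0) → c ≤ |a ^ p.1 - b ^ p.2| := by
  classical
  set P : Set (ℕ × ℕ) := {p | p.1.Coprime p.2 ∧ |a ^ p.1 - b ^ p.2| ≤ 1} with hP
  have hPfin : P.Finite := by
    obtain ⟨hb5, -, -⟩ := box_count ha hb (x := 5) (by norm_num)
    refine (hK.union hb5).subset ?_
    rintro p ⟨h1, h2⟩
    rcases lt_or_ge 4 (a ^ p.1) with h3 | h3
    · left
      exact ⟨h1, by norm_num; exact h3, h2.trans (by norm_num)⟩
    · right
      rw [abs_le] at h2
      exact ⟨by linarith, by linarith [h2.1]⟩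
  have hPpos : ∀ p ∈ P, 0 < |a ^ p.1 - b ^ p.2| := by
    rintro p ⟨h1, -⟩
    rw [abs_pos, sub_ne_zero]
    refine pow_ne_pow ha hb hirr ?_
    intro h
    have e1 : p.1 = 0 := congrArg Prod.fst h
    have e2 : p.2 = 0 := congrArg Prod.snd h
    rw [e1, e2] at h1
    exact absurd h1 (by decide)
  obtain ⟨c, hc0, hc1, hcP⟩ : ∃ c : ℝ, 0 < c ∧ c ≤ 1 ∧ ∀ p ∈ P, c ≤ |a ^ p.1 - b ^ p.2| := by
    rcases P.eq_empty_or_nonempty with he | hne
    · exact ⟨1, one_pos, le_rfl, fun p hp => by rw [he] at hp; exact absurd hp (Set.notMem_empty p)⟩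
    · obtain ⟨p0, hp0, hmin⟩ := Set.exists_min_image P (fun p => |a ^ p.1 - b ^ p.2|) hPfin hne
      exact ⟨|a ^ p0.1 - b ^ p0.2|, hPpos p0 hp0, hp0.2, fun p hp => hmin p hp⟩
  refine ⟨c, hc0, hc1, fun p hp => ?_⟩
  rcases le_or_gt 1 |a ^ p.1 - b ^ p.2| with h | h
  · linarith
  set g := Nat.gcd p.1 p.2 with hg
  have hg0 : g ≠ 0 := by
    intro h0
    rw [hg, Nat.gcd_eq_zero_iff] at h0
    exact hp (Prod.ext h0.1 h0.2)
  have hcop : Nat.Coprime (p.1 / g) (p.2 / g) := Nat.coprime_div_gcd_div_gcd (Nat.pos_of_ne_zero hg0)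
  have hn1 : g * (p.1 / g) = p.1 := Nat.mul_div_cancel' (Nat.gcd_dvd_left _ _)
  have hm1 : g * (p.2 / g) = p.2 := Nat.mul_div_cancel' (Nat.gcd_dvd_right _ _)
  have h8 := gcd_ineq ha hb (p.1 / g) (p.2 / g) g (by omega)
  rw [hn1, hm1] at h8
  have h9 : (1 : ℝ) ≤ (a ^ (p.1 / g)) ^ (g - 1) := one_le_pow₀ (one_le_pow₀ ha.le)
  have h10 : |a ^ (p.1 / g) - b ^ (p.2 / g)| ≤ |a ^ p.1 - b ^ p.2| := by
    calc |a ^ (p.1 / g) - b ^ (p.2 / g)| = |a ^ (p.1 / g) - b ^ (p.2 / g)| * 1 := (mul_one _).symm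
      _ ≤ |a ^ (p.1 / g) - b ^ (p.2 / g)| * (a ^ (p.1 / g)) ^ (g - 1) :=
          mul_le_mul_of_nonneg_left h9 (abs_nonneg _)
      _ ≤ _ := h8
  exact (hcP (p.1 / g, p.2 / g) ⟨hcop, h10.trans h.le⟩).trans h10

/-- the count of all pairs -/
theorem count (ha : 1 < a) (hb : 1 < b) (hirr : Irrational (log a / log b))
    (hK : ∀ x, (KS a b x).Finite) : ∃ C : ℝ, ∀ x : ℝ, 2 ≤ x → (NS a b x).Finite ∧
      |((NS a b x).ncard : ℝ) - log x ^ 2 / (log a * log b) - ((KS a b x).ncard : ℝ)| ≤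
        C * log x := by
  obtain ⟨c, hc0, hc1, hcc⟩ := exists_c ha hb hirr (hK 2)
  obtain ⟨C, hC⟩ := main_count ha hb hc0 hc1 hcc
  refine ⟨C, fun x hx => ?_⟩
  obtain ⟨h1, h2⟩ := hC x hx
  have e : NS a b x = (NS a b x \ KS a b x) ∪ KS a b x := (Set.sdiff_union_of_subset (KS_sub a b x)).symm
  have hfin : (NS a b x).Finite := by
    rw [e]
    exact h1.union (hK x)
  refine ⟨hfin, ?_⟩
  have h3 := Set.ncard_sdiff_add_ncard_of_subset (KS_sub a b x) hfin
  have h4 : ((NS a b x).ncard : ℝ) = ((NS a b x \ KS a b x).ncard : ℝ) + ((KS a b x).ncard : ℝ) := by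
    exact_mod_cast h3.symm
  rw [h4]
  have e2 : ((NS a b x \ KS a b x).ncard : ℝ) + ((KS a b x).ncard : ℝ) -
      log x ^ 2 / (log a * log b) - ((KS a b x).ncard : ℝ) =
      ((NS a b x \ KS a b x).ncard : ℝ) - log x ^ 2 / (log a * log b) := by ring
  rw [e2]
  exact h2

theorem log_littleO : (fun x : ℝ => log x) =o[atTop] (fun x : ℝ => log x ^ 2) := by
  have h := (isLittleO_pow_pow_atTop_of_lt (𝕜 := ℝ) (show 1 < 2 by norm_num)).comp_tendsto
    Real.tendsto_log_atTop
  simpa [Function.comp_def] using h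

theorem diff_littleO (ha : 1 < a) (hb : 1 < b) (hirr : Irrational (log a / log b))
    (hK : ∀ x, (KS a b x).Finite) :
    (fun x : ℝ => ((NS a b x).ncard : ℝ) - log x ^ 2 / (log a * log b) -
      ((KS a b x).ncard : ℝ)) =o[atTop] (fun x : ℝ => log x ^ 2) := by
  obtain ⟨C, hC⟩ := count ha hb hirr hK
  refine IsBigO.trans_isLittleO (g := fun x : ℝ => log x) ?_ log_littleO
  refine IsBigO.of_bound C ?_
  filter_upwards [eventually_ge_atTop (2 : ℝ)] with x hx
  have h := (hC x hx).2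
  rw [Real.norm_eq_abs, Real.norm_eq_abs, abs_of_nonneg (log_nonneg (by linarith))]
  exact h

/-- rational `log a / log b`: the count is infinite -/
theorem infinite_of_rational (ha : 1 < a) (hb : 1 < b) (h : ¬ Irrational (log a / log b)) {x : ℝ}
    (hx : 0 ≤ x) : (NS a b x).Infinite := by
  have hA : 0 < log a := log_pos ha
  have hB : 0 < log b := log_pos hb
  unfold Irrational at h
  push Not at h
  obtain ⟨q, hq⟩ := h
  have hq0 : (0 : ℝ) < (q : ℝ) := by rw [hq]; positivity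
  have hq0' : 0 < q := by exact_mod_cast hq0
  have hnum : 0 < q.num := Rat.num_pos.2 hq0'
  have hcast : (q : ℝ) = (q.num.toNat : ℝ) / (q.den : ℝ) := by
    have h1 : ((q.num.toNat : ℤ)) = q.num := Int.toNat_of_nonneg hnum.le
    have h2 : (q : ℝ) = (q.num : ℝ) / (q.den : ℝ) := Rat.cast_def q
    rw [h2]
    congr 1
    exact_mod_cast h1.symm
  have hden : (0 : ℝ) < (q.den : ℝ) := by exact_mod_cast q.den_pos
  have key : (q.den : ℝ) * log a = (q.num.toNat : ℝ) * log b := by
    rw [hcast, div_eq_div_iff hden.ne' hB.ne'] at hq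
    linarith
  have hpow : a ^ q.den = b ^ q.num.toNat := by
    have h3 : log (a ^ q.den) = log (b ^ q.num.toNat) := by
      rw [Real.log_pow, Real.log_pow]
      exact key
    exact Real.log_injOn_pos (by positivity : (0 : ℝ) < a ^ q.den)
      (by positivity : (0 : ℝ) < b ^ q.num.toNat) h3
  refine Set.infinite_of_injective_forall_mem (f := fun k : ℕ => (q.den * k, q.num.toNat * k)) ?_ ?_
  · intro k l hkl
    have := congrArg Prod.fst hkl
    exact Nat.eq_of_mul_eq_mul_left q.den_pos this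
  · intro k
    change |a ^ (q.den * k) - b ^ (q.num.toNat * k)| ≤ x
    rw [pow_mul, pow_mul, hpow, sub_self, abs_zero]
    exact hx

theorem criterion (ha : 1 < a) (hb : 1 < b) :
    ((fun x : ℝ => ((NS a b x).ncard : ℝ)) ~[atTop] (fun x : ℝ => log x ^ 2 / (log a * log b))) ↔
      (Irrational (log a / log b) ∧ (∀ x, (KS a b x).Finite) ∧
        (fun x : ℝ => ((KS a b x).ncard : ℝ)) =o[atTop] (fun x : ℝ => log x ^ 2)) := by
  have hA : 0 < log a := log_pos ha
  have hB : 0 < log b := log_pos hb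
  have hAB : log a * log b ≠ 0 := by positivity
  have conv : ∀ f : ℝ → ℝ, f =o[atTop] (fun x : ℝ => log x ^ 2 / (log a * log b)) ↔
      f =o[atTop] (fun x : ℝ => log x ^ 2) := by
    intro f
    have e : (fun x : ℝ => log x ^ 2 / (log a * log b)) =
        (fun x : ℝ => (log a * log b)⁻¹ * log x ^ 2) := by
      ext x
      rw [div_eq_inv_mul]
    rw [e]
    exact isLittleO_const_mul_right_iff (inv_ne_zero hAB)
  constructor
  · intro h
    have hfinL : ∀ᶠ x : ℝ in atTop, (NS a b x).Finite := by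
      have hv : ∀ᶠ x : ℝ in atTop, log x ^ 2 / (log a * log b) ≠ 0 := by
        filter_upwards [eventually_gt_atTop (1 : ℝ)] with x hx
        have := log_pos hx
        positivity
      have ht := (isEquivalent_iff_tendsto_one hv).1 h
      have ev := ht.eventually (lt_mem_nhds (show (0 : ℝ) < 1 by norm_num))
      filter_upwards [ev] with x hx
      apply Set.finite_of_ncard_ne_zero
      intro h0
      simp [h0] at hx
    have hfin : ∀ x, (NS a b x).Finite := by
      intro x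
      obtain ⟨y, hy1, hy2⟩ := (hfinL.and (eventually_ge_atTop x)).exists
      exact hy1.subset (fun p hp => le_trans hp hy2)
    have hirr : Irrational (log a / log b) := by
      by_contra hne
      exact infinite_of_rational ha hb hne (x := 0) le_rfl (hfin 0)
    have hK : ∀ x, (KS a b x).Finite := fun x => (hfin x).subset (KS_sub a b x)
    refine ⟨hirr, hK, ?_⟩
    have h1 := diff_littleO ha hb hirr hK
    have h2 : (fun x : ℝ => ((NS a b x).ncard : ℝ) - log x ^ 2 / (log a * log b)) =o[atTop]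
        (fun x : ℝ => log x ^ 2) := (conv _).1 h
    have h3 := h2.sub h1
    refine h3.congr_left fun x => ?_
    ring
  · rintro ⟨hirr, hK, ho⟩
    have h1 := diff_littleO ha hb hirr hK
    have h2 := h1.add ho
    have h3 : (fun x : ℝ => ((NS a b x).ncard : ℝ) - log x ^ 2 / (log a * log b)) =o[atTop]
        (fun x : ℝ => log x ^ 2) := h2.congr_left fun x => by ring
    exact (conv _).2 h3

end Pool.Agent.H491R3.PE
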