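import Pool.Agent.H491R3.PE.Struct

set_option autoImplicit false

namespace Pool.Agent.H491R3.PE

open Real Filter Set Asymptotics MeasureTheory
open scoped Topology

variable {a b : ℝ}

theorem box_finite (ha : 1 < a) (hb : 1 < b) (Y : ℝ) :
    {p : ℕ × ℕ | a ^ p.1 ≤ Y ∧ b ^ p.2 ≤ Y}.Finite := by
  refine (box_count ha hb (x := max Y 2) (le_max_right _ _)).1.subset ?_
  rintro p ⟨h1, h2⟩
  exact ⟨h1.trans (le_max_left _ _), h2.trans (le_max_left _ _)⟩

/-- if `log a / log b` is not Liouville with exponent `3`, the exceptional pairs are bounded -/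
theorem exc_bounded (ha : 1 < a) (hb : 1 < b) (hirr : Irrational (log a / log b))
    (hL : ¬ LiouvilleWith 3 (log a / log b)) :
    ∃ n₃ : ℕ, ∀ x : ℝ, 2 ≤ x → ∀ p ∈ KS a b x, p.1 < n₃ := by
  have hA : 0 < log a := log_pos ha
  have hB : 0 < log b := log_pos hb
  have hs : 1 < Real.sqrt a := by
    rw [Real.lt_sqrt (by norm_num)]
    linarith
  have hr : |(Real.sqrt a)⁻¹| < 1 := by
    rw [abs_of_pos (by positivity)]
    exact inv_lt_one_of_one_lt₀ hs
  have h := tendsto_pow_const_mul_const_pow_of_abs_lt_one 2 hr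
  have h2 := h.const_mul 2
  rw [mul_zero] at h2
  have h3 := h2.eventually (gt_mem_nhds hB)
  have h4 : ∀ᶠ n : ℕ in atTop, ∀ m : ℤ, 1 / (n : ℝ) ^ (3 : ℝ) ≤ |log a / log b - m / n| := by
    unfold LiouvilleWith at hL
    push Not at hL
    filter_upwards [hL 1] with n hn m
    apply hn m
    intro he
    apply hirr
    refine ⟨(m : ℚ) / n, ?_⟩
    rw [he]
    push_cast
    rfl
  obtain ⟨n₃, hn₃⟩ := Filter.eventually_atTop.1 ((h3.and h4).and (eventually_gt_atTop 0))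
  refine ⟨n₃, fun x hx p hp => ?_⟩
  by_contra hcon
  push Not at hcon
  obtain ⟨⟨h5, h6⟩, h7⟩ := hn₃ p.1 hcon
  have hn0 : (0 : ℝ) < p.1 := by exact_mod_cast h7
  have h8 := (approx ha hb hx hp).2
  have h9 := h6 (p.2 : ℤ)
  have hS : 0 < Real.sqrt a ^ p.1 := by positivity
  have h10 : 2 * (p.1 : ℝ) ^ 2 < log b * Real.sqrt a ^ p.1 := by
    rw [inv_pow] at h5
    have : 2 * ((p.1 : ℝ) ^ 2 * (Real.sqrt a ^ p.1)⁻¹) = 2 * (p.1 : ℝ) ^ 2 / Real.sqrt a ^ p.1 := by
      rw [div_eq_mul_inv]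
      ring
    rw [this, div_lt_iff₀ hS] at h5
    exact h5
  have e : log a / log b - ((p.2 : ℤ) : ℝ) / p.1 =
      ((p.1 : ℝ) * log a - p.2 * log b) / (p.1 * log b) := by
    push_cast
    field_simp
  rw [e, abs_div, abs_of_pos (by positivity : 0 < (p.1 : ℝ) * log b)] at h9
  have e3 : (p.1 : ℝ) ^ (3 : ℝ) = (p.1 : ℝ) ^ 3 := by
    rw [show (3 : ℝ) = ((3 : ℕ) : ℝ) by norm_num, Real.rpow_natCast]
  rw [e3, div_le_div_iff₀ (by positivity) (by positivity), one_mul] at h9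
  have h11 : |(p.1 : ℝ) * log a - p.2 * log b| * (p.1 : ℝ) ^ 3 ≤
      2 / Real.sqrt a ^ p.1 * (p.1 : ℝ) ^ 3 :=
    mul_le_mul_of_nonneg_right h8 (by positivity)
  have h12 : 2 / Real.sqrt a ^ p.1 * (p.1 : ℝ) ^ 3 < (p.1 : ℝ) * log b := by
    have e4 : 2 / Real.sqrt a ^ p.1 * (p.1 : ℝ) ^ 3 =
        (p.1 : ℝ) * (2 * (p.1 : ℝ) ^ 2 / Real.sqrt a ^ p.1) := by ring
    rw [e4]
    apply mul_lt_mul_of_pos_left _ hn0
    rw [div_lt_iff₀ hS]
    exact h10
  linarith

theorem tame (ha : 1 < a) (hb : 1 < b) (hirr : Irrational (log a / log b))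
    (hL : ¬ LiouvilleWith 3 (log a / log b)) :
    ∃ C : ℝ, ∀ x : ℝ, 2 ≤ x → (NS a b x).Finite ∧
      |((NS a b x).ncard : ℝ) - log x ^ 2 / (log a * log b)| ≤ C * log x := by
  obtain ⟨n₃, hn₃⟩ := exc_bounded ha hb hirr hL
  have hs : 1 < Real.sqrt a := by
    rw [Real.lt_sqrt (by norm_num)]
    linarith
  set Y : ℝ := a ^ n₃ + Real.sqrt a ^ n₃ + 6 with hY
  set F : Set (ℕ × ℕ) := {p | a ^ p.1 ≤ Y ∧ b ^ p.2 ≤ Y} with hF
  have hFfin : F.Finite := box_finite ha hb Y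
  have hK2 : ∀ x : ℝ, 2 ≤ x → KS a b x ⊆ F := by
    intro x hx p hp
    have h1 := hn₃ x hx p hp
    have h2 : a ^ p.1 ≤ a ^ n₃ := pow_le_pow_right₀ ha.le h1.le
    have h3 : Real.sqrt a ^ p.1 ≤ Real.sqrt a ^ n₃ := pow_le_pow_right₀ hs.le h1.le
    have h4 := (approx ha hb hx hp).1
    have h5 := hp.2.2
    rw [abs_le] at h5
    have h6 : 0 < Real.sqrt a ^ n₃ := by positivity
    have h7 : 0 < a ^ n₃ := by positivity
    exact ⟨by linarith, by linarith [h5.1]⟩
  have hK : ∀ x, KS a b x ⊆ F := by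
    intro x
    rcases le_or_gt 2 x with hx | hx
    · exact hK2 x hx
    · intro p hp
      rcases lt_or_ge 4 (a ^ p.1) with h3 | h3
      · apply hK2 2 le_rfl
        exact ⟨hp.1, by norm_num; exact h3, hp.2.2.trans hx.le⟩
      · have h5 := hp.2.2
        rw [abs_le] at h5
        have h6 : 0 < Real.sqrt a ^ n₃ := by positivity
        have h7 : 0 < a ^ n₃ := by positivity
        exact ⟨by linarith, by linarith [h5.1]⟩
  obtain ⟨C, hC⟩ := count ha hb hirr fun x => hFfin.subset (hK x)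
  have hl2 : 0 < log 2 := log_pos (by norm_num)
  refine ⟨C + F.ncard / log 2, fun x hx => ?_⟩
  obtain ⟨h1, h2⟩ := hC x hx
  refine ⟨h1, ?_⟩
  have h3 : ((KS a b x).ncard : ℝ) ≤ F.ncard := by
    exact_mod_cast Set.ncard_le_ncard (hK x) hFfin
  have h4 : (F.ncard : ℝ) ≤ F.ncard / log 2 * log x := by
    have h5 : log 2 ≤ log x := Real.log_le_log (by norm_num) hx
    have h6 : (F.ncard : ℝ) = F.ncard / log 2 * log 2 := by field_simp
    calc (F.ncard : ℝ) = F.ncard / log 2 * log 2 := h6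
      _ ≤ _ := mul_le_mul_of_nonneg_left h5 (by positivity)
  have h5 : (0 : ℝ) ≤ ((KS a b x).ncard : ℝ) := Nat.cast_nonneg _
  rw [abs_le] at h2 ⊢
  constructor <;> linarith [h2.1, h2.2]

theorem ae_irr : ∀ᵐ t : ℝ, Irrational t := by
  have h := (Set.countable_range (fun q : ℚ => (q : ℝ))).ae_notMem volume
  filter_upwards [h] with t ht
  exact ht

theorem ae_tame (hb : 1 < b) : ∀ᵐ a : ℝ, 1 < a → Irrational (log a / log b) ∧
    ¬ LiouvilleWith 3 (log a / log b) := by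
  have hB : 0 < log b := log_pos hb
  set T : Set ℝ := {t | ¬ (Irrational t ∧ ¬ LiouvilleWith 3 t)} with hT
  have hT0 : volume T = 0 := by
    have h : ∀ᵐ t : ℝ, Irrational t ∧ ¬ LiouvilleWith 3 t := by
      filter_upwards [ae_irr, ae_not_liouvilleWith] with t h1 h2
      exact ⟨h1, h2 3 (by norm_num)⟩
    exact ae_iff.1 h
  have h1 : volume ((fun t : ℝ => Real.exp (t * log b)) '' T) = 0 := by
    apply addHaar_image_eq_zero_of_differentiableOn_of_addHaar_eq_zero volume _ hT0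
    apply Differentiable.differentiableOn
    fun_prop
  rw [ae_iff]
  refine measure_mono_null ?_ h1
  intro a ha
  simp only [Set.mem_ofPred_eq, Classical.not_imp] at ha
  refine ⟨log a / log b, ha.2, ?_⟩
  change Real.exp (log a / log b * log b) = a
  rw [div_mul_cancel₀ _ hB.ne', Real.exp_log (by linarith [ha.1])]

theorem irr_of_notMem (hb : 1 < b) {a : ℝ} (ha : 1 < a)
    (h : a ∉ Set.range (fun q : ℚ => Real.exp (q * log b))) : Irrational (log a / log b) := by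
  have hB : 0 < log b := log_pos hb
  rintro ⟨q, hq⟩
  apply h
  refine ⟨q, ?_⟩
  change Real.exp (q * log b) = a
  rw [hq, div_mul_cancel₀ _ hB.ne', Real.exp_log (by linarith)]

theorem indep_of_irr (ha : 1 < a) (hb : 1 < b) (hirr : Irrational (log a / log b)) :
    ∀ n m : ℤ, a ^ n = b ^ m → n = 0 ∧ m = 0 := by
  have hA : 0 < log a := log_pos ha
  have hB : 0 < log b := log_pos hb
  intro n m h
  have h1 := congrArg log h
  rw [Real.log_zpow, Real.log_zpow] at h1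
  have hn : n = 0 := by
    by_contra hn
    apply hirr
    refine ⟨(m : ℚ) / n, ?_⟩
    have hn' : (n : ℝ) ≠ 0 := by exact_mod_cast hn
    push_cast
    rw [div_eq_div_iff hn' hB.ne']
    linarith
  refine ⟨hn, ?_⟩
  rw [hn, Int.cast_zero, zero_mul] at h1
  rcases mul_eq_zero.1 h1.symm with h2 | h2
  · exact_mod_cast h2
  · exact absurd h2 hB.ne'

/-- the open sets of the Baire argument -/
def OS (b : ℝ) (k : ℕ) : Set ℝ :=
  {a | ∃ n m : ℕ, k ≤ n ∧ |a ^ n - b ^ m| < 1 / ((k : ℝ) + 1)}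

theorem OS_open (b : ℝ) (k : ℕ) : IsOpen (OS b k) := by
  have : OS b k = ⋃ n : ℕ, ⋃ m : ℕ, {a : ℝ | k ≤ n ∧ |a ^ n - b ^ m| < 1 / ((k : ℝ) + 1)} := by
    ext a
    simp [OS]
  rw [this]
  refine isOpen_iUnion fun n => isOpen_iUnion fun m => ?_
  by_cases hk : k ≤ n
  · have e : {a : ℝ | k ≤ n ∧ |a ^ n - b ^ m| < 1 / ((k : ℝ) + 1)} =
        {a : ℝ | |a ^ n - b ^ m| < 1 / ((k : ℝ) + 1)} := by
      ext a
      simp [hk]
    rw [e]
    exact isOpen_lt (by fun_prop) continuous_const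
  · have e : {a : ℝ | k ≤ n ∧ |a ^ n - b ^ m| < 1 / ((k : ℝ) + 1)} = ∅ := by
      ext a
      simp [hk]
    rw [e]
    exact isOpen_empty

theorem OS_dense (hb : 1 < b) (k : ℕ) : Dense (OS b k ∪ Set.Iio 1) := by
  have hB : 0 < log b := log_pos hb
  rw [dense_iff_inter_open]
  intro U hU hne
  by_contra hcon
  rw [Set.not_nonempty_iff_eq_empty] at hcon
  obtain ⟨y, hy⟩ := hne
  have hy1 : 1 ≤ y := by
    by_contra h
    push Not at h
    have : y ∈ U ∩ (OS b k ∪ Set.Iio 1) := ⟨hy, Or.inr h⟩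
    rw [hcon] at this
    exact this
  obtain ⟨ε, hε, hball⟩ := Metric.isOpen_iff.1 hU y hy
  have h1 : log y / log b < log (y + ε) / log b := by
    apply div_lt_div_of_pos_right _ hB
    exact Real.log_lt_log (by linarith) (by linarith)
  obtain ⟨q, hq1, hq2⟩ := exists_rat_btwn h1
  have hq0 : (0 : ℝ) < q := by
    have : 0 ≤ log y / log b := div_nonneg (log_nonneg hy1) hB.le
    linarith
  have hq0' : 0 < q := by exact_mod_cast hq0
  rw [div_lt_iff₀ hB] at hq1
  rw [lt_div_iff₀ hB] at hq2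
  set a := Real.exp (q * log b) with ha
  have ha1 : y < a := by
    rw [ha, ← Real.log_lt_iff_lt_exp (by linarith)]
    exact hq1
  have ha2 : a < y + ε := by
    rw [ha, ← Real.lt_log_iff_exp_lt (by linarith)]
    exact hq2
  have haU : a ∈ U := by
    apply hball
    rw [Metric.mem_ball, Real.dist_eq, abs_of_pos (by linarith)]
    linarith
  have haO : a ∈ OS b k := by
    have hnum : 0 < q.num := Rat.num_pos.2 hq0'
    have hcast : (q : ℝ) * q.den = (q.num.toNat : ℝ) := by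
      have h1 : ((q.num.toNat : ℤ)) = q.num := Int.toNat_of_nonneg hnum.le
      have h2 : (q : ℝ) = (q.num : ℝ) / (q.den : ℝ) := Rat.cast_def q
      have h3 : (q.den : ℝ) ≠ 0 := by
        exact_mod_cast q.den_pos.ne'
      rw [h2, div_mul_cancel₀ _ h3]
      exact_mod_cast h1.symm
    have hpow : a ^ q.den = b ^ q.num.toNat := by
      have hb0 : 0 < b := by linarith
      rw [ha, ← Real.exp_nat_mul]
      have : (q.den : ℝ) * (q * log b) = (q.num.toNat : ℝ) * log b := by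
        rw [← hcast]
        ring
      rw [this, Real.exp_nat_mul, Real.exp_log hb0]
    refine ⟨q.den * k, q.num.toNat * k, ?_, ?_⟩
    · exact Nat.le_mul_of_pos_left k q.den_pos
    · rw [pow_mul, pow_mul, hpow, sub_self, abs_zero]
      positivity
  have : a ∈ U ∩ (OS b k ∪ Set.Iio 1) := ⟨haU, Or.inl haO⟩
  rw [hcon] at this
  exact this

theorem infinite_of_OS {a : ℝ} (h : ∀ k, a ∈ OS b k) {x : ℝ} (hx : 0 < x) :
    (NS a b x).Infinite := by
  obtain ⟨K, hK⟩ := exists_nat_one_div_lt hx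
  have h1 : ∀ j : ℕ, ∃ p ∈ NS a b x, j ≤ p.1 := by
    intro j
    obtain ⟨n, m, hn, hnm⟩ := h (max j K)
    refine ⟨(n, m), ?_, (le_max_left _ _).trans hn⟩
    change |a ^ n - b ^ m| ≤ x
    have h2 : 1 / (((max j K : ℕ) : ℝ) + 1) ≤ 1 / ((K : ℝ) + 1) := by
      apply one_div_le_one_div_of_le (by positivity)
      have : (K : ℝ) ≤ ((max j K : ℕ) : ℝ) := by exact_mod_cast le_max_right j K
      linarith
    linarith
  intro hfin
  obtain ⟨M, hM⟩ := (hfin.image Prod.fst).bddAbove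
  obtain ⟨p, hp, hj⟩ := h1 (M + 1)
  have := hM ⟨p, hp, rfl⟩
  omega

theorem generic (hb : 1 < b) : ∀ᶠ a in residual ℝ, 1 < a →
    (∀ n m : ℤ, a ^ n = b ^ m → n = 0 ∧ m = 0) ∧ ∀ x : ℝ, 0 < x → (NS a b x).Infinite := by
  have hc : (Set.range (fun q : ℚ => Real.exp (q * log b))).Countable := Set.countable_range _
  have h1 : (Set.range (fun q : ℚ => Real.exp (q * log b)))ᶜ ∈ residual ℝ :=
    residual_of_dense_Gδ hc.isGδ_compl (hc.dense_compl ℝ)
  have h2 : ∀ k : ℕ, OS b k ∪ Set.Iio 1 ∈ residual ℝ := fun k =>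
    residual_of_dense_open ((OS_open b k).union isOpen_Iio) (OS_dense hb k)
  have h3 : ∀ᶠ a in residual ℝ, ∀ k : ℕ, a ∈ OS b k ∪ Set.Iio 1 :=
    eventually_countable_forall.2 h2
  filter_upwards [h1, h3] with a ha1 ha2 ha
  have h4 : ∀ k, a ∈ OS b k := by
    intro k
    rcases ha2 k with h | h
    · exact h
    · exact absurd (show a < 1 from h) (not_lt.2 ha.le)
  exact ⟨indep_of_irr ha hb (irr_of_notMem hb ha ha1), fun x hx => infinite_of_OS h4 hx⟩

/-- infinitely many pairs for every `x`: the asymptotic formula fails -/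
theorem not_asymp (ha : 1 < a) (hb : 1 < b) (h : ∀ x : ℝ, 0 < x → (NS a b x).Infinite) :
    ¬ ((fun x : ℝ => ((NS a b x).ncard : ℝ)) ~[atTop] (fun x : ℝ => log x ^ 2 / (log a * log b))) := by
  intro hc
  rw [criterion ha hb] at hc
  obtain ⟨hirr, hK, -⟩ := hc
  obtain ⟨C, hC⟩ := count ha hb hirr hK
  exact h 2 (by norm_num) (hC 2 le_rfl).1

end Pool.Agent.H491R3.PE
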