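import Pool.Agent.H491R3.PE.Struct

set_option autoImplicit false

namespace Pool.Agent.H491R3.PE

open Real Filter Set Asymptotics

variable {a b : ℝ}

/-- coprime pairs with `|a ^ n - b ^ m| < a ^ (n / 2)` -/
def SS (a b : ℝ) : Set (ℕ × ℕ) := {p | p.1.Coprime p.2 ∧ |a ^ p.1 - b ^ p.2| ^ 2 < a ^ p.1}

/-- those with `|a ^ n - b ^ m| ≤ x` -/
def SX (a b x : ℝ) : Set (ℕ × ℕ) := {p | p ∈ SS a b ∧ |a ^ p.1 - b ^ p.2| ≤ x}

theorem KS_sub_SX (a b x : ℝ) : KS a b x ⊆ SX a b x := by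
  rintro p ⟨h1, h2, h3⟩
  exact ⟨⟨h1, lt_of_le_of_lt (pow_le_pow_left₀ (abs_nonneg _) h3 2) h2⟩, h3⟩

theorem SX_diff (a b x : ℝ) : SX a b x \ KS a b x ⊆ {p | p ∈ SS a b ∧ a ^ p.1 ≤ x ^ 2} := by
  rintro p ⟨⟨h1, h2⟩, h3⟩
  refine ⟨h1, ?_⟩
  by_contra h
  push Not at h
  exact h3 ⟨h1.1, h, h2⟩

theorem sqrt_gt (ha : 1 < a) : 1 < Real.sqrt a := by
  rw [Real.lt_sqrt (by norm_num)]
  linarith

theorem approxS (ha : 1 < a) (hb : 1 < b) {p : ℕ × ℕ} (hp : p ∈ SS a b)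
    (h2 : 2 < Real.sqrt a ^ p.1) :
    |(p.1 : ℝ) * log a - p.2 * log b| ≤ 2 / Real.sqrt a ^ p.1 := by
  have hs : 0 ≤ Real.sqrt a ^ p.1 := by positivity
  have hd : |a ^ p.1 - b ^ p.2| < Real.sqrt a ^ p.1 := by
    have h3 : |a ^ p.1 - b ^ p.2| ^ 2 < (Real.sqrt a ^ p.1) ^ 2 := by
      have h4 := hp.2
      have h5 := sq_sqrt_pow ha p.1
      calc |a ^ p.1 - b ^ p.2| ^ 2 < a ^ p.1 := h4
        _ = _ := h5
    exact lt_of_pow_lt_pow_left₀ 2 hs h3
  refine (approx ha hb (x := max 2 |a ^ p.1 - b ^ p.2|) (le_max_left _ _)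
    ⟨hp.1, ?_, le_max_right _ _⟩).2
  have h6 : max 2 |a ^ p.1 - b ^ p.2| < Real.sqrt a ^ p.1 := max_lt h2 hd
  calc max 2 |a ^ p.1 - b ^ p.2| ^ 2 < (Real.sqrt a ^ p.1) ^ 2 :=
        pow_lt_pow_left₀ h6 (le_trans (by norm_num) (le_max_left _ _)) two_ne_zero
    _ = a ^ p.1 := (sq_sqrt_pow ha p.1).symm

theorem nearS (ha : 1 < a) (hb : 1 < b) : ∃ n₀ : ℕ, 0 < n₀ ∧ ∀ p ∈ SS a b, n₀ ≤ p.1 →
    4 * (p.1 : ℝ) < log b * Real.sqrt a ^ p.1 ∧
    |(p.1 : ℝ) * (log a / log b) - p.2| ≤ 2 / log b / Real.sqrt a ^ p.1 := by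
  have hB : 0 < log b := log_pos hb
  have hs := sqrt_gt ha
  obtain ⟨n₁, hn₁⟩ := eventually_small ha hB
  obtain ⟨n₂, hn₂⟩ := pow_unbounded_of_one_lt 2 hs
  refine ⟨max (max n₁ n₂) 1, lt_of_lt_of_le one_pos (le_max_right _ _), fun p hp hn => ?_⟩
  have h1 : n₁ ≤ p.1 := ((le_max_left _ _).trans (le_max_left _ _)).trans hn
  have h2 : n₂ ≤ p.1 := ((le_max_right _ _).trans (le_max_left _ _)).trans hn
  have h3 : 2 < Real.sqrt a ^ p.1 := lt_of_lt_of_le hn₂ (pow_le_pow_right₀ hs.le h2)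
  have h4 := approxS ha hb hp h3
  have h5 := hn₁ p.1 h1
  have hS : 0 < Real.sqrt a ^ p.1 := by positivity
  constructor
  · rwa [div_lt_iff₀ hS] at h5
  · have e : (p.1 : ℝ) * (log a / log b) - p.2 = ((p.1 : ℝ) * log a - p.2 * log b) / log b := by
      field_simp
    rw [e, abs_div, abs_of_pos hB, div_le_iff₀ hB]
    refine h4.trans (le_of_eq ?_)
    field_simp

theorem structureS (ha : 1 < a) (hb : 1 < b) : ∃ n₀ : ℕ, ∀ p ∈ SS a b, n₀ ≤ p.1 →
    (∃ k, (log a / log b).convergent k = (p.2 : ℚ) / p.1) ∧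
    (∀ q ∈ SS a b, p.1 < q.1 → log b / 4 * Real.sqrt a ^ p.1 ≤ q.1) := by
  have hA : 0 < log a := log_pos ha
  have hB : 0 < log b := log_pos hb
  have hs := sqrt_gt ha
  obtain ⟨n₀, hn₀, hnear⟩ := nearS ha hb
  refine ⟨n₀, fun p hp hn => ?_⟩
  have hn0 : (0 : ℝ) < p.1 := by
    have : 0 < p.1 := by omega
    exact_mod_cast this
  have hS : 0 < Real.sqrt a ^ p.1 := by positivity
  obtain ⟨h5, h3⟩ := hnear p hp hn
  constructor
  · have hcop := hp.1
    have hden : ((p.2 : ℚ) / p.1).den = p.1 := by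
      have h1 := Rat.den_div_eq_of_coprime (a := (p.2 : ℤ)) (b := (p.1 : ℤ)) (by omega)
        (by simpa using hcop.symm)
      push_cast at h1
      exact_mod_cast h1
    have h2 : |log a / log b - (((p.2 : ℚ) / p.1 : ℚ) : ℝ)| <
        1 / (2 * ((((p.2 : ℚ) / p.1).den : ℕ) : ℝ) ^ 2) := by
      rw [hden]
      have e : log a / log b - (((p.2 : ℚ) / p.1 : ℚ) : ℝ) =
          ((p.1 : ℝ) * (log a / log b) - p.2) / p.1 := by
        push_cast
        field_simp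
      rw [e, abs_div, abs_of_pos hn0, div_lt_div_iff₀ hn0 (by positivity)]
      calc |(p.1 : ℝ) * (log a / log b) - p.2| * (2 * (p.1 : ℝ) ^ 2)
          ≤ 2 / log b / Real.sqrt a ^ p.1 * (2 * (p.1 : ℝ) ^ 2) :=
            mul_le_mul_of_nonneg_right h3 (by positivity)
        _ = (4 * (p.1 : ℝ)) * (p.1 / (log b * Real.sqrt a ^ p.1)) := by
            field_simp
            ring
        _ < (log b * Real.sqrt a ^ p.1) * (p.1 / (log b * Real.sqrt a ^ p.1)) :=
            mul_lt_mul_of_pos_right h5 (by positivity)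
        _ = 1 * p.1 := by
            field_simp
    obtain ⟨k, hk⟩ := Real.exists_rat_eq_convergent h2
    exact ⟨k, hk.symm⟩
  · intro q hq hpq
    obtain ⟨-, h2⟩ := hnear q hq (by omega)
    have hq0 : (0 : ℝ) < q.1 := by
      exact_mod_cast (by omega : 0 < q.1)
    have hne : (p.2 : ℤ) * q.1 - q.2 * p.1 ≠ 0 := by
      intro h
      have h3 : p.2 * q.1 = q.2 * p.1 := by
        have : (p.2 : ℤ) * q.1 = q.2 * p.1 := by linarith
        exact_mod_cast this
      have h4 : q.1 ∣ p.1 := by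
        have : q.1 ∣ q.2 * p.1 := ⟨p.2, by rw [← h3]; ring⟩
        exact (Nat.Coprime.dvd_of_dvd_mul_left hq.1 this)
      have := Nat.le_of_dvd (by omega) h4
      omega
    have h5 : (1 : ℝ) ≤ |(p.2 : ℝ) * q.1 - q.2 * p.1| := by
      have := Int.one_le_abs hne
      exact_mod_cast this
    set θ := log a / log b with hθ
    have e : (p.2 : ℝ) * q.1 - q.2 * p.1 =
        (p.1 : ℝ) * ((q.1 : ℝ) * θ - q.2) - (q.1 : ℝ) * ((p.1 : ℝ) * θ - p.2) := by ring
    have h6 : 2 / log b / Real.sqrt a ^ q.1 ≤ 2 / log b / Real.sqrt a ^ p.1 := by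
      apply div_le_div_of_nonneg_left (by positivity) hS
      exact pow_le_pow_right₀ hs.le hpq.le
    have h7 : (1 : ℝ) ≤ 4 / log b / Real.sqrt a ^ p.1 * q.1 := by
      rw [e] at h5
      have h8 := abs_sub ((p.1 : ℝ) * ((q.1 : ℝ) * θ - q.2)) ((q.1 : ℝ) * ((p.1 : ℝ) * θ - p.2))
      rw [abs_mul, abs_mul, abs_of_pos hn0, abs_of_pos hq0] at h8
      have hpq' : (p.1 : ℝ) ≤ q.1 := by exact_mod_cast hpq.le
      have h9 : (p.1 : ℝ) * |(q.1 : ℝ) * θ - q.2| ≤ q.1 * (2 / log b / Real.sqrt a ^ p.1) :=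
        mul_le_mul hpq' (h2.trans h6) (abs_nonneg _) hq0.le
      have h10 : (q.1 : ℝ) * |(p.1 : ℝ) * θ - p.2| ≤ q.1 * (2 / log b / Real.sqrt a ^ p.1) :=
        mul_le_mul_of_nonneg_left h3 hq0.le
      have h11 : 4 / log b / Real.sqrt a ^ p.1 * q.1 =
          q.1 * (2 / log b / Real.sqrt a ^ p.1) + q.1 * (2 / log b / Real.sqrt a ^ p.1) := by ring
      rw [h11]
      linarith
    have h12 : log b / 4 * Real.sqrt a ^ p.1 * 1 ≤
        log b / 4 * Real.sqrt a ^ p.1 * (4 / log b / Real.sqrt a ^ p.1 * q.1) :=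
      mul_le_mul_of_nonneg_left h7 (by positivity)
    have h13 : log b / 4 * Real.sqrt a ^ p.1 * (4 / log b / Real.sqrt a ^ p.1 * q.1) = q.1 := by
      field_simp
    rw [h13, mul_one] at h12
    exact h12

/-- few elements of `SS` with `a ^ n ≤ x ^ 2` -/
theorem small_card (ha : 1 < a) (hb : 1 < b) : ∃ C : ℝ, ∀ x : ℝ, 2 ≤ x →
    {p | p ∈ SS a b ∧ a ^ p.1 ≤ x ^ 2}.Finite ∧
      ({p | p ∈ SS a b ∧ a ^ p.1 ≤ x ^ 2}.ncard : ℝ) ≤ C * log x := by
  classical
  have hA : 0 < log a := log_pos ha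
  have hB : 0 < log b := log_pos hb
  have hs := sqrt_gt ha
  obtain ⟨n₀, hn₀, hnear⟩ := nearS ha hb
  set Y : ℝ := max 2 (2 * a ^ n₀) with hY
  set F : Set (ℕ × ℕ) := {p | a ^ p.1 ≤ Y ∧ b ^ p.2 ≤ Y} with hF
  have hFfin : F.Finite := (box_count ha hb (le_max_left _ _)).1
  have hl2 : 0 < log 2 := log_pos (by norm_num)
  refine ⟨(F.ncard + 1) / log 2 + 2 / log a, fun x hx => ?_⟩
  have hx0 : 0 < x := by linarith
  have hlx : log 2 ≤ log x := Real.log_le_log (by norm_num) hx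
  have hlx0 : 0 < log x := by linarith
  set M : ℕ := ⌊2 * log x / log a⌋₊ with hM
  set G : Set (ℕ × ℕ) := (fun n : ℕ => (n, (round ((n : ℝ) * (log a / log b))).toNat)) '' (Set.Iic M)
    with hG
  have hGfin : G.Finite := (Set.finite_Iic M).image _
  have hsub : {p | p ∈ SS a b ∧ a ^ p.1 ≤ x ^ 2} ⊆ F ∪ G := by
    rintro p ⟨hp, hpx⟩
    rcases lt_or_ge p.1 n₀ with h | h
    · left
      have h1 : a ^ p.1 ≤ a ^ n₀ := pow_le_pow_right₀ ha.le h.le
      have h2 : a ^ p.1 * 1 ≤ a ^ p.1 * a ^ p.1 :=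
        mul_le_mul_of_nonneg_left (one_le_pow₀ ha.le) (by positivity)
      have h3 : |a ^ p.1 - b ^ p.2| ^ 2 < (a ^ p.1) ^ 2 := by
        refine lt_of_lt_of_le hp.2 ?_
        rw [sq]
        linarith
      have h4 : |a ^ p.1 - b ^ p.2| < a ^ p.1 := lt_of_pow_lt_pow_left₀ 2 (by positivity) h3
      rw [abs_lt] at h4
      have h5 : 2 * a ^ n₀ ≤ Y := le_max_right _ _
      have h6 : 0 < a ^ p.1 := by positivity
      exact ⟨by linarith, by linarith [h4.1]⟩
    · right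
      obtain ⟨h1, h2⟩ := hnear p hp h
      refine ⟨p.1, ?_, ?_⟩
      · rw [Set.mem_Iic, hM, Nat.le_floor_iff (by positivity), le_div_iff₀ hA]
        have := Real.log_le_log (by positivity) hpx
        rw [Real.log_pow, Real.log_pow] at this
        push_cast at this
        exact this
      · have hS : 0 < Real.sqrt a ^ p.1 := by positivity
        have hp1 : (1 : ℝ) ≤ p.1 := by
          have : 1 ≤ p.1 := by omega
          exact_mod_cast this
        have h3 : 2 / log b / Real.sqrt a ^ p.1 ≤ 1 / 2 := by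
          rw [div_div, div_le_div_iff₀ (by positivity) (by norm_num)]
          linarith
        have h4 : 2 / log b / Real.sqrt a ^ p.1 < 1 / 2 ∨ 2 / log b / Real.sqrt a ^ p.1 = 1 / 2 :=
          lt_or_eq_of_le h3
        have h5 : 2 / log b / Real.sqrt a ^ p.1 < 1 / 2 := by
          rw [div_div, div_lt_div_iff₀ (by positivity) (by norm_num)]
          linarith
        have h6 : |(p.1 : ℝ) * (log a / log b) - ((p.2 : ℤ) : ℝ)| < 1 / 2 := by
          push_cast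
          exact lt_of_le_of_lt h2 h5
        have h7 : round ((p.1 : ℝ) * (log a / log b)) = (p.2 : ℤ) := by
          rw [round_eq, Int.floor_eq_iff]
          rw [abs_lt] at h6
          constructor <;> linarith [h6.1, h6.2]
        apply Prod.ext
        · rfl
        · change (round ((p.1 : ℝ) * (log a / log b))).toNat = p.2
          rw [h7]
          simp
  have hfin := (hFfin.union hGfin)
  refine ⟨hfin.subset hsub, ?_⟩
  have h1 : {p | p ∈ SS a b ∧ a ^ p.1 ≤ x ^ 2}.ncard ≤ F.ncard + (M + 1) := by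
    refine (Set.ncard_le_ncard hsub hfin).trans ((Set.ncard_union_le F G).trans ?_)
    apply Nat.add_le_add_left
    refine (Set.ncard_image_le (Set.finite_Iic M)).trans ?_
    rw [Set.ncard_eq_toFinset_card' (Set.Iic M)]
    simp
  have h2 : (({p | p ∈ SS a b ∧ a ^ p.1 ≤ x ^ 2}.ncard : ℕ) : ℝ) ≤ F.ncard + ((M : ℝ) + 1) := by
    exact_mod_cast h1
  have h3 : (M : ℝ) ≤ 2 * log x / log a := Nat.floor_le (by positivity)
  have h4 : ((F.ncard : ℝ) + 1) ≤ (F.ncard + 1) / log 2 * log x := by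
    have h6 : ((F.ncard : ℝ) + 1) = (F.ncard + 1) / log 2 * log 2 := by field_simp
    calc ((F.ncard : ℝ) + 1) = (F.ncard + 1) / log 2 * log 2 := h6
      _ ≤ _ := mul_le_mul_of_nonneg_left hlx (by positivity)
  have h5 : ((F.ncard + 1) / log 2 + 2 / log a) * log x =
      (F.ncard + 1) / log 2 * log x + 2 * log x / log a := by ring
  rw [h5]
  linarith

/-- the two exceptional counts differ by `O(log x)` -/
theorem compare (ha : 1 < a) (hb : 1 < b) : ∃ C : ℝ, ∀ x : ℝ, 2 ≤ x →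
    ((KS a b x).Finite → (SX a b x).Finite ∧
      |((SX a b x).ncard : ℝ) - ((KS a b x).ncard : ℝ)| ≤ C * log x) := by
  obtain ⟨C, hC⟩ := small_card ha hb
  refine ⟨C, fun x hx hK => ?_⟩
  obtain ⟨h1, h2⟩ := hC x hx
  have h3 : (SX a b x \ KS a b x).Finite := h1.subset (SX_diff a b x)
  have hfin : (SX a b x).Finite := by
    rw [(Set.sdiff_union_of_subset (KS_sub_SX a b x)).symm]
    exact h3.union hK
  refine ⟨hfin, ?_⟩
  have h4 := Set.ncard_sdiff_add_ncard_of_subset (KS_sub_SX a b x) hfin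
  have h5 : ((SX a b x).ncard : ℝ) = ((SX a b x \ KS a b x).ncard : ℝ) + ((KS a b x).ncard : ℝ) := by
    exact_mod_cast h4.symm
  have h6 : ((SX a b x \ KS a b x).ncard : ℝ) ≤
      ({p | p ∈ SS a b ∧ a ^ p.1 ≤ x ^ 2}.ncard : ℝ) := by
    exact_mod_cast Set.ncard_le_ncard (SX_diff a b x) h1
  rw [h5, add_sub_cancel_right, abs_of_nonneg (Nat.cast_nonneg _)]
  linarith

theorem KS_finite_iff (ha : 1 < a) (hb : 1 < b) :
    (∀ x, (KS a b x).Finite) ↔ (∀ x, (SX a b x).Finite) := by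
  constructor
  · intro h x
    obtain ⟨C, hC⟩ := compare ha hb
    refine (hC (max x 2) (le_max_right _ _) (h _)).1.subset ?_
    rintro p ⟨h1, h2⟩
    exact ⟨h1, h2.trans (le_max_left _ _)⟩
  · intro h x
    exact (h x).subset (KS_sub_SX a b x)

theorem countS (ha : 1 < a) (hb : 1 < b) (hirr : Irrational (log a / log b))
    (hS : ∀ x, (SX a b x).Finite) : ∃ C : ℝ, ∀ x : ℝ, 2 ≤ x → (NS a b x).Finite ∧
      |((NS a b x).ncard : ℝ) - log x ^ 2 / (log a * log b) - ((SX a b x).ncard : ℝ)| ≤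
        C * log x := by
  have hK := (KS_finite_iff ha hb).2 hS
  obtain ⟨C₁, hC₁⟩ := count ha hb hirr hK
  obtain ⟨C₂, hC₂⟩ := compare ha hb
  refine ⟨C₁ + C₂, fun x hx => ?_⟩
  obtain ⟨h1, h2⟩ := hC₁ x hx
  obtain ⟨-, h3⟩ := hC₂ x hx (hK x)
  refine ⟨h1, ?_⟩
  rw [abs_le] at *
  constructor <;> linarith [h2.1, h2.2, h3.1, h3.2]

theorem criterionS (ha : 1 < a) (hb : 1 < b) :
    ((fun x : ℝ => ((NS a b x).ncard : ℝ)) ~[atTop] (fun x : ℝ => log x ^ 2 / (log a * log b))) ↔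
      (Irrational (log a / log b) ∧ (∀ x, (SX a b x).Finite) ∧
        (fun x : ℝ => ((SX a b x).ncard : ℝ)) =o[atTop] (fun x : ℝ => log x ^ 2)) := by
  rw [criterion ha hb, KS_finite_iff ha hb]
  refine and_congr_right fun _ => and_congr_right fun hS => ?_
  have hK := (KS_finite_iff ha hb).2 hS
  obtain ⟨C, hC⟩ := compare ha hb
  have hd : (fun x : ℝ => ((SX a b x).ncard : ℝ) - ((KS a b x).ncard : ℝ)) =o[atTop]
      (fun x : ℝ => log x ^ 2) := by
    refine IsBigO.trans_isLittleO (g := fun x : ℝ => log x) ?_ log_littleO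
    refine IsBigO.of_bound C ?_
    filter_upwards [eventually_ge_atTop (2 : ℝ)] with x hx
    have h := (hC x hx (hK x)).2
    rw [Real.norm_eq_abs, Real.norm_eq_abs, abs_of_nonneg (log_nonneg (by linarith))]
    exact h
  constructor
  · intro h
    have := hd.add h
    exact this.congr_left fun x => by ring
  · intro h
    have := h.sub hd
    exact this.congr_left fun x => by ring

end Pool.Agent.H491R3.PE
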