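import Pool.Agent.H491R3.PE.Crit

set_option autoImplicit false

namespace Pool.Agent.H491R3.PE

open Real Filter Set Asymptotics

variable {a b : ℝ}

theorem abs_log_le {y : ℝ} (hy : |y - 1| ≤ 1 / 2) : |log y| ≤ 2 * |y - 1| := by
  rw [abs_le] at hy
  have hy0 : 0 < y := by linarith
  have h1 : log y ≤ y - 1 := Real.log_le_sub_one_of_pos hy0
  have h2 : log y⁻¹ ≤ y⁻¹ - 1 := Real.log_le_sub_one_of_pos (by positivity)
  rw [Real.log_inv] at h2
  rcases le_total 1 y with h | h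
  · rw [abs_of_nonneg (log_nonneg h), abs_of_nonneg (by linarith)]
    linarith
  · rw [abs_of_nonpos (log_nonpos hy0.le h), abs_of_nonpos (by linarith)]
    have h3 : y⁻¹ - 1 ≤ 2 * (1 - y) := by
      have : y⁻¹ - 1 = (1 - y) * y⁻¹ := by field_simp
      rw [this, mul_comm 2]
      apply mul_le_mul_of_nonneg_left _ (by linarith)
      rw [inv_le_comm₀ hy0 (by norm_num)]
      linarith
    linarith

theorem sq_sqrt_pow (ha : 1 < a) (n : ℕ) : a ^ n = (Real.sqrt a ^ n) ^ 2 := by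
  rw [← pow_mul, mul_comm, pow_mul, Real.sq_sqrt (by linarith)]

/-- the pairs in `KS` are very good approximations -/
theorem approx (ha : 1 < a) (hb : 1 < b) {x : ℝ} (hx : 2 ≤ x) {p : ℕ × ℕ} (hp : p ∈ KS a b x) :
    x < Real.sqrt a ^ p.1 ∧
      |(p.1 : ℝ) * log a - p.2 * log b| ≤ 2 / Real.sqrt a ^ p.1 := by
  obtain ⟨-, h2, h3⟩ := hp
  rw [sq_sqrt_pow ha] at h2 h3
  set S := Real.sqrt a ^ p.1 with hS
  have hs : 0 < Real.sqrt a := Real.sqrt_pos.2 (by linarith)
  have hS0 : 0 < S := by positivity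
  have hxS : x < S := lt_of_pow_lt_pow_left₀ 2 hS0.le h2
  refine ⟨hxS, ?_⟩
  have hb0 : 0 < b ^ p.2 := by positivity
  have h4 : |b ^ p.2 / S ^ 2 - 1| ≤ 1 / S := by
    have e : b ^ p.2 / S ^ 2 - 1 = -((S ^ 2 - b ^ p.2) / S ^ 2) := by
      field_simp
      ring
    rw [e, abs_neg, abs_div, abs_of_pos (by positivity : 0 < S ^ 2), div_le_div_iff₀ (by positivity) hS0]
    have : |S ^ 2 - b ^ p.2| ≤ S := h3.trans hxS.le
    calc |S ^ 2 - b ^ p.2| * S ≤ S * S := mul_le_mul_of_nonneg_right this hS0.le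
      _ = 1 * S ^ 2 := by ring
  have h5 : 1 / S ≤ 1 / 2 := by
    apply one_div_le_one_div_of_le (by norm_num)
    linarith
  have h6 := abs_log_le (h4.trans h5)
  have e2 : log (b ^ p.2 / S ^ 2) = -((p.1 : ℝ) * log a - p.2 * log b) := by
    rw [Real.log_div hb0.ne' (by positivity), ← sq_sqrt_pow ha, Real.log_pow, Real.log_pow]
    ring
  rw [e2, abs_neg] at h6
  refine h6.trans ?_
  have : 2 / S = 2 * (1 / S) := by ring
  rw [this]
  linarith

theorem eventually_small (ha : 1 < a) {B : ℝ} (hB : 0 < B) : ∃ n₀ : ℕ, ∀ n ≥ n₀,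
    4 * (n : ℝ) / Real.sqrt a ^ n < B := by
  have hs : 1 < Real.sqrt a := by
    rw [Real.lt_sqrt (by norm_num)]
    linarith
  have hr : |(Real.sqrt a)⁻¹| < 1 := by
    rw [abs_of_pos (by positivity)]
    exact inv_lt_one_of_one_lt₀ hs
  have h := tendsto_pow_const_mul_const_pow_of_abs_lt_one 1 hr
  have h2 := h.const_mul 4
  rw [mul_zero] at h2
  obtain ⟨n₀, h3⟩ := Filter.eventually_atTop.1 (h2.eventually (gt_mem_nhds hB))
  refine ⟨n₀, fun n hn => ?_⟩
  have := h3 n hn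
  rw [pow_one, inv_pow] at this
  rw [mul_div_assoc, div_eq_mul_inv]
  exact this

theorem structure_KS (ha : 1 < a) (hb : 1 < b) : ∃ x₀ : ℝ, ∀ x : ℝ, x₀ ≤ x →
    (∀ p ∈ KS a b x, ∃ k, (log a / log b).convergent k = (p.2 : ℚ) / p.1) ∧
    (∀ p ∈ KS a b x, ∀ q ∈ KS a b x, p.1 < q.1 →
      log b / 4 * Real.sqrt a ^ p.1 ≤ q.1) := by
  have hA : 0 < log a := log_pos ha
  have hB : 0 < log b := log_pos hb
  have hs : 1 < Real.sqrt a := by
    rw [Real.lt_sqrt (by norm_num)]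
    linarith
  obtain ⟨n₀, hn₀⟩ := eventually_small ha hB
  refine ⟨max 2 (Real.sqrt a ^ (n₀ + 1)), fun x hx => ?_⟩
  have hx2 : 2 ≤ x := (le_max_left _ _).trans hx
  have hxn : Real.sqrt a ^ (n₀ + 1) ≤ x := (le_max_right _ _).trans hx
  have big : ∀ p ∈ KS a b x, n₀ + 1 < p.1 := by
    intro p hp
    have h1 := (approx ha hb hx2 hp).1
    exact (pow_lt_pow_iff_right₀ hs).1 (lt_of_le_of_lt hxn h1)
  have near : ∀ p ∈ KS a b x, |(p.1 : ℝ) * (log a / log b) - p.2| ≤
      2 / log b / Real.sqrt a ^ p.1 := by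
    intro p hp
    have h1 := (approx ha hb hx2 hp).2
    have e : (p.1 : ℝ) * (log a / log b) - p.2 = ((p.1 : ℝ) * log a - p.2 * log b) / log b := by
      field_simp
    rw [e, abs_div, abs_of_pos hB, div_le_iff₀ hB]
    refine h1.trans (le_of_eq ?_)
    field_simp
  constructor
  · intro p hp
    have hn := big p hp
    have hn0 : (0 : ℝ) < p.1 := by
      have : 0 < p.1 := by omega
      exact_mod_cast this
    have hcop := hp.1
    have hden : ((p.2 : ℚ) / p.1).den = p.1 := by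
      have h1 := Rat.den_div_eq_of_coprime (a := (p.2 : ℤ)) (b := (p.1 : ℤ)) (by omega)
        (by simpa using hcop.symm)
      push_cast at h1
      exact_mod_cast h1
    have h2 : |log a / log b - (((p.2 : ℚ) / p.1 : ℚ) : ℝ)| <
        1 / (2 * ((((p.2 : ℚ) / p.1).den : ℕ) : ℝ) ^ 2) := by
      rw [hden]
      have h3 := near p hp
      have e : log a / log b - (((p.2 : ℚ) / p.1 : ℚ) : ℝ) =
          ((p.1 : ℝ) * (log a / log b) - p.2) / p.1 := by
        push_cast
        field_simp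
      rw [e, abs_div, abs_of_pos hn0, div_lt_div_iff₀ hn0 (by positivity)]
      have h4 := hn₀ p.1 (by omega)
      have hS : 0 < Real.sqrt a ^ p.1 := by positivity
      have h5 : 4 * (p.1 : ℝ) < log b * Real.sqrt a ^ p.1 := by
        rwa [div_lt_iff₀ hS] at h4
      calc |(p.1 : ℝ) * (log a / log b) - p.2| * (2 * (p.1 : ℝ) ^ 2)
          ≤ 2 / log b / Real.sqrt a ^ p.1 * (2 * (p.1 : ℝ) ^ 2) :=
            mul_le_mul_of_nonneg_right h3 (by positivity)
        _ = (4 * (p.1 : ℝ)) * (p.1 / (log b * Real.sqrt a ^ p.1)) := by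
            field_simp
            ring
        _ < (log b * Real.sqrt a ^ p.1) * (p.1 / (log b * Real.sqrt a ^ p.1)) :=
            mul_lt_mul_of_pos_right h5 (by positivity)
        _ = 1 * p.1 := by
            field_simp
    obtain ⟨k, hk⟩ := Real.exists_rat_eq_convergent h2
    exact ⟨k, hk.symm⟩
  · intro p hp q hq hpq
    have h1 := near p hp
    have h2 := near q hq
    have hp0 : (0 : ℝ) < p.1 := by
      have := big p hp
      exact_mod_cast (by omega : 0 < p.1)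
    have hq0 : (0 : ℝ) < q.1 := by
      have := big q hq
      exact_mod_cast (by omega : 0 < q.1)
    have hne : (p.2 : ℤ) * q.1 - q.2 * p.1 ≠ 0 := by
      intro h
      have h3 : p.2 * q.1 = q.2 * p.1 := by
        have : (p.2 : ℤ) * q.1 = q.2 * p.1 := by linarith
        exact_mod_cast this
      have h4 : q.1 ∣ p.1 := by
        have : q.1 ∣ q.2 * p.1 := ⟨p.2, by rw [← h3]; ring⟩
        exact (Nat.Coprime.dvd_of_dvd_mul_left hq.1 this)
      have := Nat.le_of_dvd (by exact_mod_cast hp0) h4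
      omega
    have h5 : (1 : ℝ) ≤ |(p.2 : ℝ) * q.1 - q.2 * p.1| := by
      have := Int.one_le_abs hne
      exact_mod_cast this
    set θ := log a / log b with hθ
    have e : (p.2 : ℝ) * q.1 - q.2 * p.1 =
        (p.1 : ℝ) * ((q.1 : ℝ) * θ - q.2) - (q.1 : ℝ) * ((p.1 : ℝ) * θ - p.2) := by ring
    have hS : 0 < Real.sqrt a ^ p.1 := by positivity
    have h6 : 2 / log b / Real.sqrt a ^ q.1 ≤ 2 / log b / Real.sqrt a ^ p.1 := by
      apply div_le_div_of_nonneg_left (by positivity) hS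
      exact pow_le_pow_right₀ hs.le hpq.le
    have h7 : (1 : ℝ) ≤ 4 / log b / Real.sqrt a ^ p.1 * q.1 := by
      rw [e] at h5
      have h8 := abs_sub ((p.1 : ℝ) * ((q.1 : ℝ) * θ - q.2)) ((q.1 : ℝ) * ((p.1 : ℝ) * θ - p.2))
      rw [abs_mul, abs_mul, abs_of_pos hp0, abs_of_pos hq0] at h8
      have hpq' : (p.1 : ℝ) ≤ q.1 := by exact_mod_cast hpq.le
      have h9 : (p.1 : ℝ) * |(q.1 : ℝ) * θ - q.2| ≤ q.1 * (2 / log b / Real.sqrt a ^ p.1) :=
        mul_le_mul hpq' (h2.trans h6) (abs_nonneg _) hq0.le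
      have h10 : (q.1 : ℝ) * |(p.1 : ℝ) * θ - p.2| ≤ q.1 * (2 / log b / Real.sqrt a ^ p.1) :=
        mul_le_mul_of_nonneg_left h1 hq0.le
      have h11 : 4 / log b / Real.sqrt a ^ p.1 * q.1 =
          q.1 * (2 / log b / Real.sqrt a ^ p.1) + q.1 * (2 / log b / Real.sqrt a ^ p.1) := by ring
      rw [h11]
      linarith
    have h12 : log b / 4 * Real.sqrt a ^ p.1 * 1 ≤
        log b / 4 * Real.sqrt a ^ p.1 * (4 / log b / Real.sqrt a ^ p.1 * q.1) :=
      mul_le_mul_of_nonneg_left h7 (by positivity)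
    have h13 : log b / 4 * Real.sqrt a ^ p.1 * (4 / log b / Real.sqrt a ^ p.1 * q.1) = q.1 := by
      field_simp
    rw [h13, mul_one] at h12
    exact h12

end Pool.Agent.H491R3.PE
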